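import Pool.Agent.H60.PDc

set_option autoImplicit false

namespace Pool.Agent.Results.MP_e4dd62_an.Yes

open MeasureTheory

/-- `τ` is positive definite on `[-1,1]`: it is the restriction to `[-1,1]` of the Fourier
transform `ξ ↦ ∫ exp(i ξ x) dμ(x)` of a finite nonnegative Borel measure `μ` on `ℝ`. -/
def PosDefOnUnit (τ : ℝ → ℝ) : Prop :=
  ∃ μ : Measure ℝ, IsFiniteMeasure μ ∧
    ∀ ξ ∈ Set.Icc (-1 : ℝ) 1, ∫ x : ℝ, Complex.exp (Complex.I * (ξ : ℂ) * (x : ℂ)) ∂μ = (τ ξ : ℂ)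

/-- `τ_α(ξ) = 1 - |ξ|^α`. -/
noncomputable def tau (α : ℝ) (ξ : ℝ) : ℝ := 1 - |ξ| ^ α

/-- The admissible exponents. -/
def admissible : Set ℝ := {α : ℝ | 0 < α ∧ PosDefOnUnit (tau α)}

/-- `β₀`, the supremum of the admissible exponents. -/
noncomputable def beta0 : ℝ := sSup admissible

/-- `ρ(α) = ∫_0^{3π/2} cos t / t^(2-α) dt`. -/
noncomputable def rho (α : ℝ) : ℝ :=
  ∫ t in (0 : ℝ)..(3 * Real.pi / 2), Real.cos t / t ^ (2 - α)

theorem rho_eq (α : ℝ) : rho α = Pool.Agent.H60.PD.II α (3 * Real.pi / 2) := by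
  unfold rho Pool.Agent.H60.PD.II
  apply intervalIntegral.integral_congr
  intro t ht
  rw [Set.uIcc_of_le (by positivity)] at ht
  have e : α - 2 = -(2 - α) := by ring
  simp only
  rw [e, Real.rpow_neg ht.1, div_eq_mul_inv, mul_comm]

theorem result :
    BddAbove admissible ∧
    (∃ α₀ ∈ Set.Ioo (1 : ℝ) 2, rho α₀ = 0) ∧
    ∀ α₀ ∈ Set.Ioo (1 : ℝ) 2, rho α₀ = 0 →
      (∃ α ∈ admissible, α₀ < α) ∧ α₀ < beta0 := by
  have hb : BddAbove admissible := ⟨2, fun α hα => Pool.Agent.H60.PD.PDc_le_two hα.1 hα.2⟩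
  refine ⟨hb, ?_, fun α₀ h h0 => ?_⟩
  · simpa only [rho_eq] using Pool.Agent.H60.PD.exists_root
  · rw [rho_eq] at h0
    obtain ⟨α, hα, hP⟩ := Pool.Agent.H60.PD.exists_above h.1 h.2 h0
    have hm : α ∈ admissible := ⟨by linarith [h.1], hP⟩
    exact ⟨⟨α, hm, hα⟩, lt_of_lt_of_le hα (le_csSup hb hm)⟩

end Pool.Agent.Results.MP_e4dd62_an.Yes
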